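import Pool.Agent.Helper52.SX.Goals3

/-!
# Project SX, packet FNU: the numbers
-/

namespace Pool.Agent.Helper98.SX

open Pool.Agent.Helper78.DT Pool.Agent.Helper52.SX

theorem fnu : FnuStmt := by
  intro c K0 e N0 r hr
  have hX1 : 1 ≤ 4 * N0 + 4 := by omega
  have hXle : 4 * N0 + 4 ≤ (4 * N0 + 4) ^ (K0 + 4) := by
    calc 4 * N0 + 4 = (4 * N0 + 4) ^ 1 := (pow_one _).symm
      _ ≤ (4 * N0 + 4) ^ (K0 + 4) := Nat.pow_le_pow_right hX1 (by omega)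
  have h1 : N0 ≤ (4 * N0 + 4) ^ (K0 + 4) := by omega
  have h2l : 2 ^ lg N0 ≤ 4 * N0 + 4 := by
    unfold lg
    rw [pow_add]
    rcases Nat.eq_zero_or_pos N0 with h | h
    · subst h
      simp
    · have := Nat.pow_log_le_self 2 (by omega : N0 ≠ 0)
      omega
  have hpw : 2 ^ (K0 * lg N0) ≤ (4 * N0 + 4) ^ K0 := by
    rw [mul_comm, pow_mul]
    exact Nat.pow_le_pow_left h2l K0
  have hXK : 1 ≤ (4 * N0 + 4) ^ K0 := Nat.one_le_pow _ _ hX1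
  have h2 : N0 * 2 ^ (K0 * lg N0) + 1 ≤ (4 * N0 + 4) ^ (K0 + 4) := by
    calc N0 * 2 ^ (K0 * lg N0) + 1 ≤ N0 * (4 * N0 + 4) ^ K0 + (4 * N0 + 4) ^ K0 :=
          Nat.add_le_add (Nat.mul_le_mul_left _ hpw) hXK
      _ = (N0 + 1) * (4 * N0 + 4) ^ K0 := by ring
      _ ≤ (4 * N0 + 4) * (4 * N0 + 4) ^ K0 := Nat.mul_le_mul_right _ (by omega)
      _ = (4 * N0 + 4) ^ (K0 + 1) := by ring
      _ ≤ (4 * N0 + 4) ^ (K0 + 4) := Nat.pow_le_pow_right hX1 (by omega)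
  have h3 : lg N0 ≤ lg ((4 * N0 + 4) ^ (K0 + 4)) := by
    unfold lg
    exact Nat.add_le_add_right (Nat.log_mono_right h1) 2
  have hL : 2 ≤ lg N0 := by
    unfold lg
    omega
  have h4 : r ≤ lg N0 := by
    by_contra hc
    rw [not_le] at hc
    have h5 : lg N0 ^ e ≤ r ^ e := Nat.pow_le_pow_left hc.le e
    have h6 : 0 < r ^ e := pow_pos (by omega) e
    have h7 : r ^ e * 1 < r ^ e * r := Nat.mul_lt_mul_of_pos_left (by omega) h6
    rw [pow_succ] at hr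
    omega
  have h4L : 4 * lg N0 ≤ lg ((4 * N0 + 4) ^ (K0 + 4)) := by
    have h5 : (4 * N0 + 4) ^ 4 ≤ (4 * N0 + 4) ^ (K0 + 4) := Nat.pow_le_pow_right hX1 (by omega)
    have h6 : 2 ^ (4 * lg N0) ≤ (4 * N0 + 4) ^ (K0 + 4) := by
      calc 2 ^ (4 * lg N0) = (2 ^ lg N0) ^ 4 := by rw [mul_comm, pow_mul]
        _ ≤ (4 * N0 + 4) ^ 4 := Nat.pow_le_pow_left h2l 4
        _ ≤ _ := h5
    have h7 : 4 * lg N0 ≤ Nat.log 2 ((4 * N0 + 4) ^ (K0 + 4)) :=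
      Nat.le_log_of_pow_le (by norm_num) h6
    have h8 : lg ((4 * N0 + 4) ^ (K0 + 4)) = Nat.log 2 ((4 * N0 + 4) ^ (K0 + 4)) + 2 := rfl
    omega
  refine ⟨h1, h2, h3, h4, ?_, ?_⟩
  · calc (2 * r) ^ (e + 2) = 2 ^ (e + 2) * (r ^ (e + 1) * r) := by ring
      _ ≤ 2 ^ (e + 2) * (lg N0 ^ e * lg N0) :=
          Nat.mul_le_mul_left _ (Nat.mul_le_mul hr h4)
      _ = 2 ^ (e + 2) * lg N0 ^ (e + 1) := by ring
      _ ≤ 4 ^ (e + 1) * lg N0 ^ (e + 1) := by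
          apply Nat.mul_le_mul_right
          have : (4 : ℕ) = 2 ^ 2 := by norm_num
          rw [this, ← pow_mul]
          exact Nat.pow_le_pow_right (by norm_num) (by omega)
      _ = (4 * lg N0) ^ (e + 1) := by ring
      _ ≤ _ := Nat.pow_le_pow_left h4L _
  · generalize lg ((4 * N0 + 4) ^ (K0 + 4)) = M at h4L h3
    generalize lg N0 = L at h4L h3 hL
    have hL0 : (0 : ℝ) < L := by exact_mod_cast (by omega : 0 < L)
    have hM : (L : ℝ) ≤ M := by exact_mod_cast h3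
    have hM8 : (8 : ℝ) ≤ M := by exact_mod_cast (by omega : 8 ≤ M)
    have hLc : (0 : ℝ) < (L : ℝ) ^ c := pow_pos hL0 c
    have hMc : (L : ℝ) ^ c ≤ (M : ℝ) ^ c := pow_le_pow_left₀ hL0.le hM c
    have hkey : 2 * (L : ℝ) ^ c ≤ (M : ℝ) ^ (c + 1) := by
      rw [pow_succ]
      nlinarith
    have e1 : 1 / (L : ℝ) ^ c - 1 / (4 * (L : ℝ) ^ c) = 3 / (4 * (L : ℝ) ^ c) := by
      field_simp
      norm_num
    rw [e1, div_le_div_iff₀ (by linarith) (by positivity)]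
    linarith

end Pool.Agent.Helper98.SX
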